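import Pool.Agent.Helper13.TW.StE

/-!
# Composition of joint subdivisions
-/

set_option autoImplicit false

namespace Pool.Agent.Helper22.TW

open Set Topology Pool.Agent.Helper13.TR Pool.Agent.Helper13.TW

theorem hLRC : StLRC := by
  intro X X' _ _ cell cell' hc hc'
  refine ⟨?_, ?_⟩
  · intro M L L' hV hL hL'
    have hE : ∀ N ∈ L, ∀ A ∈ L' N, A.E ⊆ N.E := by
      intro N hN A hA x hx
      rw [← (hL' N hN).un]
      exact mem_iUnion₂.mpr ⟨A, hA, hx⟩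
    have hE' : ∀ N ∈ L, ∀ A ∈ L' N, A.E' ⊆ N.E' := by
      intro N hN A hA x hx
      rw [← (hL' N hN).un']
      exact mem_iUnion₂.mpr ⟨A, hA, hx⟩
    have hJE : ∀ N ∈ L, ∀ A ∈ L' N, A.J ⊆ A.E := by
      intro N hN A hA
      exact (hc.cpt _ _ ((hL' N hN).val A hA).1).2.1
    have hJE' : ∀ N ∈ L, ∀ A ∈ L' N, A.J' ⊆ A.E' := by
      intro N hN A hA
      exact (hc'.cpt _ _ ((hL' N hN).val A hA).2.1).2.1
    have hmap : ∀ N ∈ L, ∀ A ∈ L' N, ∀ x ∈ A.J, A.h x ∈ A.E' := by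
      intro N hN A hA x hx
      refine hJE' N hN A hA ?_
      rw [← ((hL' N hN).val A hA).2.2.2.2]
      exact mem_image_of_mem _ hx
    have hpre : ∀ N ∈ L, ∀ u ∈ N.J', ∃ x ∈ N.J, N.h x = u := by
      intro N hN u hu
      rw [← (hL.val N hN).2.2.2.2] at hu
      exact hu
    refine ⟨?_, ?_, ?_, ?_, ?_, ?_, ?_, ?_, ?_, ?_, ?_, ?_⟩
    · exact hL.fin.biUnion fun N hN => (hL' N hN).fin
    · intro A hA
      obtain ⟨N, hN, hA⟩ := mem_iUnion₂.mp hA
      exact (hL' N hN).val A hA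
    · rw [← hL.un]
      ext x
      constructor
      · intro hx
        obtain ⟨A, hA, hx⟩ := mem_iUnion₂.mp hx
        obtain ⟨N, hN, hA⟩ := mem_iUnion₂.mp hA
        exact mem_iUnion₂.mpr ⟨N, hN, hE N hN A hA hx⟩
      · intro hx
        obtain ⟨N, hN, hx⟩ := mem_iUnion₂.mp hx
        rw [← (hL' N hN).un] at hx
        obtain ⟨A, hA, hx⟩ := mem_iUnion₂.mp hx
        exact mem_iUnion₂.mpr ⟨A, mem_iUnion₂.mpr ⟨N, hN, hA⟩, hx⟩
    · rw [← hL.un']
      ext x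
      constructor
      · intro hx
        obtain ⟨A, hA, hx⟩ := mem_iUnion₂.mp hx
        obtain ⟨N, hN, hA⟩ := mem_iUnion₂.mp hA
        exact mem_iUnion₂.mpr ⟨N, hN, hE' N hN A hA hx⟩
      · intro hx
        obtain ⟨N, hN, hx⟩ := mem_iUnion₂.mp hx
        rw [← (hL' N hN).un'] at hx
        obtain ⟨A, hA, hx⟩ := mem_iUnion₂.mp hx
        exact mem_iUnion₂.mpr ⟨A, mem_iUnion₂.mpr ⟨N, hN, hA⟩, hx⟩
    · intro A hA B hB hAB
      obtain ⟨N, hN, hA⟩ := mem_iUnion₂.mp hA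
      obtain ⟨N', hN', hB⟩ := mem_iUnion₂.mp hB
      by_cases h : N = N'
      · subst h
        exact (hL' N hN).dis A hA B hB hAB
      · rintro x ⟨hx1, hx2⟩
        obtain ⟨h1, h2⟩ := hL.dis N hN N' hN' h ⟨hE N hN A hA hx1, hE N' hN' B hB hx2⟩
        exact ⟨(hL' N hN).bdy A hA ⟨hx1, h1⟩, (hL' N' hN').bdy B hB ⟨hx2, h2⟩⟩
    · intro A hA B hB hAB
      obtain ⟨N, hN, hA⟩ := mem_iUnion₂.mp hA
      obtain ⟨N', hN', hB⟩ := mem_iUnion₂.mp hB
      by_cases h : N = N'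
      · subst h
        exact (hL' N hN).dis' A hA B hB hAB
      · rintro x ⟨hx1, hx2⟩
        obtain ⟨h1, h2⟩ := hL.dis' N hN N' hN' h ⟨hE' N hN A hA hx1, hE' N' hN' B hB hx2⟩
        exact ⟨(hL' N hN).bdy' A hA ⟨hx1, h1⟩, (hL' N' hN').bdy' B hB ⟨hx2, h2⟩⟩
    · intro A hA B hB x hx
      obtain ⟨N, hN, hA⟩ := mem_iUnion₂.mp hA
      obtain ⟨N', hN', hB⟩ := mem_iUnion₂.mp hB
      by_cases h : N = N'
      · subst h
        exact (hL' N hN).agr A hA B hB x hx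
      · obtain ⟨h1, h2⟩ := hL.dis N hN N' hN' h
          ⟨hE N hN A hA (hJE N hN A hA hx.1), hE N' hN' B hB (hJE N' hN' B hB hx.2)⟩
        rw [(hL' N hN).agb A hA x ⟨hx.1, h1⟩, hL.agr N hN N' hN' x ⟨h1, h2⟩,
          (hL' N' hN').agb B hB x ⟨hx.2, h2⟩]
    · intro A hA B hB x hx y hy hxy
      obtain ⟨N, hN, hA⟩ := mem_iUnion₂.mp hA
      obtain ⟨N', hN', hB⟩ := mem_iUnion₂.mp hB
      by_cases h : N = N'
      · subst h
        exact (hL' N hN).inj A hA B hB x hx y hy hxy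
      · have hu : A.h x ∈ N.E' := hE' N hN A hA (hmap N hN A hA x hx)
        have hu' : A.h x ∈ N'.E' := by
          rw [hxy]
          exact hE' N' hN' B hB (hmap N' hN' B hB y hy)
        obtain ⟨h1, h2⟩ := hL.dis' N hN N' hN' h ⟨hu, hu'⟩
        obtain ⟨x₁, hx₁, ex⟩ := hpre N hN _ h1
        obtain ⟨y₁, hy₁, ey⟩ := hpre N' hN' _ h2
        have e1 : x = x₁ := (hL' N hN).inb A hA x hx x₁ hx₁ ex.symm
        have e2 : y = y₁ := (hL' N' hN').inb B hB y hy y₁ hy₁ (by rw [← hxy]; exact ey.symm)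
        rw [e1, e2]
        exact hL.inj N hN N' hN' x₁ hx₁ y₁ hy₁ (ex.trans ey.symm)
    · intro A hA x hx
      obtain ⟨N, hN, hA⟩ := mem_iUnion₂.mp hA
      exact (hL' N hN).bdy A hA ⟨hx.1, hL.bdy N hN ⟨hE N hN A hA hx.1, hx.2⟩⟩
    · intro A hA x hx
      obtain ⟨N, hN, hA⟩ := mem_iUnion₂.mp hA
      exact (hL' N hN).bdy' A hA ⟨hx.1, hL.bdy' N hN ⟨hE' N hN A hA hx.1, hx.2⟩⟩
    · intro A hA x hx
      obtain ⟨N, hN, hA⟩ := mem_iUnion₂.mp hA
      have h1 : x ∈ N.J := hL.bdy N hN ⟨hE N hN A hA (hJE N hN A hA hx.1), hx.2⟩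
      rw [(hL' N hN).agb A hA x ⟨hx.1, h1⟩, hL.agb N hN x ⟨h1, hx.2⟩]
    · intro A hA x hx y hy hxy
      obtain ⟨N, hN, hA⟩ := mem_iUnion₂.mp hA
      have hu : A.h x ∈ N.E' := hE' N hN A hA (hmap N hN A hA x hx)
      have hM : A.h x ∈ M.J' := by
        rw [hxy, ← hV.2.2.2.2]
        exact mem_image_of_mem _ hy
      have h1 : A.h x ∈ N.J' := hL.bdy' N hN ⟨hu, hM⟩
      obtain ⟨x₁, hx₁, ex⟩ := hpre N hN _ h1
      have e1 : x = x₁ := (hL' N hN).inb A hA x hx x₁ hx₁ ex.symm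
      rw [e1]
      exact hL.inb N hN x₁ hx₁ y hy (ex.trans hxy)
  · intro M hM
    have hJE : M.J ⊆ M.E := (hc.cpt _ _ hM.1).2.1
    refine ⟨finite_singleton M, ?_, ?_, ?_, ?_, ?_, ?_, ?_, ?_, ?_, ?_, ?_⟩
    · intro N hN
      rw [mem_singleton_iff.mp hN]
      exact hM
    · simp
    · simp
    · intro N hN N' hN' h
      exact absurd ((mem_singleton_iff.mp hN).trans (mem_singleton_iff.mp hN').symm) h
    · intro N hN N' hN' h
      exact absurd ((mem_singleton_iff.mp hN).trans (mem_singleton_iff.mp hN').symm) h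
    · intro N hN N' hN' x _
      rw [mem_singleton_iff.mp hN, mem_singleton_iff.mp hN']
    · intro N hN N' hN' x hx y hy hxy
      rw [mem_singleton_iff.mp hN] at hx hxy
      rw [mem_singleton_iff.mp hN'] at hy hxy
      exact hM.2.2.2.1 hx hy hxy
    · intro N hN x hx
      rw [mem_singleton_iff.mp hN]
      exact hx.2
    · intro N hN x hx
      rw [mem_singleton_iff.mp hN]
      exact hx.2
    · intro N hN x _
      rw [mem_singleton_iff.mp hN]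
    · intro N hN x hx y hy hxy
      rw [mem_singleton_iff.mp hN] at hx hxy
      exact hM.2.2.2.1 hx hy hxy

end Pool.Agent.Helper22.TW
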