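import Pool.Agent.Helper31.TW.St3

set_option autoImplicit false

namespace Pool.Agent.Helper22.TW

open Pool.Agent.Helper31.TW Pool.Agent.Helper22.FL Pool.Agent.Helper22.CS Pool.Agent.Helper15.TS

private lemma clip_cases (K : ℕ) (hK : 1 ≤ K) (a b : ℤ) (h : clip K a = clip K b) :
    a = b ∨ ((K : ℤ) ≤ a ∧ (K : ℤ) ≤ b) ∨ (a ≤ -(K : ℤ) ∧ b ≤ -(K : ℤ)) := by
  simp only [clip, max_def, min_def] at h
  split_ifs at h <;> omega

private lemma test_congr (K : ℕ) (k g a b : ℤ) (hk : |k| < (K : ℤ)) (h : clip K a = clip K b) :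
    k ≤ g * a → k ≤ g * b := by
  intro h1
  have hk1 := abs_lt.1 hk
  have hK1 : 1 ≤ K := by
    have h0 := abs_nonneg k
    omega
  rcases clip_cases K hK1 a b h with h2 | ⟨h2, h3⟩ | ⟨h2, h3⟩
  · rw [← h2]; exact h1
  · rcases lt_trichotomy g 0 with hg | hg | hg
    · exfalso
      have h4 : g * a ≤ -(K : ℤ) := by nlinarith
      linarith
    · rw [hg, zero_mul] at h1 ⊢
      exact h1
    · have h4 : (K : ℤ) ≤ g * b := by nlinarith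
      linarith
  · rcases lt_trichotomy g 0 with hg | hg | hg
    · have h4 : (K : ℤ) ≤ g * b := by nlinarith
      linarith
    · rw [hg, zero_mul] at h1 ⊢
      exact h1
    · exfalso
      have h4 : g * a ≤ -(K : ℤ) := by nlinarith
      linarith

private lemma dot_smul {n : ℕ} (g : ℤ) (α x : Fin n → ℤ) : dot (g • α) x = g * dot α x := by
  simp only [dot, Pi.smul_apply, smul_eq_mul, Finset.mul_sum]
  exact Finset.sum_congr rfl (fun i _ => by ring)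

private lemma frm_aff {n : ℕ} (α : Fin n → ℤ) (ρ t : Fin n → ℕ) (D : ℕ) :
    frm α (ρ + D • t) = frm α ρ + dot ((D : ℤ) • α) (Pool.Agent.Helper31.TW.toZ t) := by
  rw [dot_smul]
  simp only [frm, dot, Pool.Agent.Helper31.TW.toZ, Finset.mul_sum, ← Finset.sum_add_distrib]
  refine Finset.sum_congr rfl (fun i _ => ?_)
  simp only [Pi.add_apply, Pi.smul_apply, smul_eq_mul]
  push_cast
  ring

/-- **NQE**. -/
theorem hNQE (hREP : StREP) (hLQE : StLQE) (hNRM : StNRM) : StNQE := by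
  classical
  intro n S hS
  obtain ⟨R, hR1, hR2⟩ := hREP n S hS
  have h : ∀ r : (Fin n → ℕ) × Finset (Fin n → ℕ), ∃ (D : ℕ) (A : Finset ((Fin n → ℤ) × ℤ))
      (𝓒 : Set (Fin n → ℕ)), 1 ≤ D ∧ (r ∈ R →
        (∀ x x' : Fin n → ℕ, (∀ i, x i % D = x' i % D) → (x ∈ 𝓒 ↔ x' ∈ 𝓒)) ∧
        ∀ x : Fin n → ℕ, x ∈ lin r.1 r.2 ↔ x ∈ 𝓒 ∧ ∀ p ∈ A, p.2 ≤ frm p.1 x) := by
    intro r
    by_cases hr : r ∈ R
    · obtain ⟨D, A, 𝓒, h1, h2, h3⟩ := hLQE n r.1 r.2 (hR1 r hr)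
      exact ⟨D, A, 𝓒, h1, fun _ => ⟨h2, h3⟩⟩
    · exact ⟨1, ∅, ∅, le_refl 1, fun h => absurd h hr⟩
  choose D A 𝓒 hD hP using h
  refine ⟨∏ r ∈ R, D r, ?_, ?_⟩
  · exact Finset.one_le_prod' (fun r _ => hD r)
  intro ρ
  obtain ⟨D0, hD0⟩ : ∃ D0, D0 = ∏ r ∈ R, D r := ⟨_, rfl⟩
  rw [← hD0]
  have hdvd : ∀ r ∈ R, D r ∣ D0 := fun r hr => by
    rw [hD0]
    exact Finset.dvd_prod_of_mem D hr
  obtain ⟨𝓐, hN, hg⟩ := hNRM n (R.biUnion (fun r => (A r).image (fun p => (D0 : ℤ) • p.1)))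
  obtain ⟨K, hK⟩ : ∃ K : ℕ, K = 1 + ∑ r ∈ R, ∑ p ∈ A r, (p.2 - frm p.1 ρ).natAbs := ⟨_, rfl⟩
  have hKlt : ∀ r ∈ R, ∀ p ∈ A r, |p.2 - frm p.1 ρ| < (K : ℤ) := by
    intro r hr p hp
    have h1 : (p.2 - frm p.1 ρ).natAbs ≤ ∑ p ∈ A r, (p.2 - frm p.1 ρ).natAbs :=
      Finset.single_le_sum (f := fun p : (Fin n → ℤ) × ℤ => (p.2 - frm p.1 ρ).natAbs)
        (fun _ _ => Nat.zero_le _) hp
    have h2 : ∑ p ∈ A r, (p.2 - frm p.1 ρ).natAbs ≤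
        ∑ r ∈ R, ∑ p ∈ A r, (p.2 - frm p.1 ρ).natAbs :=
      Finset.single_le_sum (f := fun r => ∑ p ∈ A r, (p.2 - frm p.1 ρ).natAbs)
        (fun _ _ => Nat.zero_le _) hr
    rw [Int.abs_eq_natAbs]
    omega
  refine ⟨fun v => ∃ r ∈ R, ρ ∈ 𝓒 r ∧ ∀ p ∈ A r, p.2 - frm p.1 ρ ≤ dot ((D0 : ℤ) • p.1) v,
    𝓐, K, ?_, hN, ?_⟩
  · have key : ∀ x x' : Fin n → ℤ, (∀ α ∈ 𝓐, clip K (dot α x) = clip K (dot α x')) →
        (∃ r ∈ R, ρ ∈ 𝓒 r ∧ ∀ p ∈ A r, p.2 - frm p.1 ρ ≤ dot ((D0 : ℤ) • p.1) x) →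
        ∃ r ∈ R, ρ ∈ 𝓒 r ∧ ∀ p ∈ A r, p.2 - frm p.1 ρ ≤ dot ((D0 : ℤ) • p.1) x' := by
      rintro x x' hx ⟨r, hr, h1, h2⟩
      refine ⟨r, hr, h1, fun p hp => ?_⟩
      have h3 := h2 p hp
      have hmem : (D0 : ℤ) • p.1 ∈ R.biUnion (fun r => (A r).image (fun p => (D0 : ℤ) • p.1)) :=
        Finset.mem_biUnion.2 ⟨r, hr, Finset.mem_image.2 ⟨p, hp, rfl⟩⟩
      rcases hg _ hmem with h4 | ⟨β, hβ, g, h4⟩
      · rw [h4] at h3 ⊢
        have h5 : ∀ y : Fin n → ℤ, dot (0 : Fin n → ℤ) y = 0 := fun y => by simp [dot]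
        rw [h5] at h3 ⊢
        exact h3
      · rw [h4, dot_smul] at h3 ⊢
        exact test_congr K _ g _ _ (hKlt r hr p hp) (hx β hβ) h3
    intro x x' hx
    exact ⟨key x x' hx, key x' x (fun α hα => (hx α hα).symm)⟩
  · intro t
    rw [hR2]
    have h1 : ∀ r ∈ R, (ρ + D0 • t ∈ lin r.1 r.2 ↔
        ρ ∈ 𝓒 r ∧ ∀ p ∈ A r, p.2 - frm p.1 ρ ≤ dot ((D0 : ℤ) • p.1) (Pool.Agent.Helper31.TW.toZ t)) := by
      intro r hr
      obtain ⟨h2, h3⟩ := hP r hr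
      rw [h3]
      have h4 : ρ + D0 • t ∈ 𝓒 r ↔ ρ ∈ 𝓒 r := by
        refine h2 _ _ (fun i => ?_)
        obtain ⟨c, hc⟩ := hdvd r hr
        simp only [Pi.add_apply, Pi.smul_apply, smul_eq_mul]
        rw [hc, mul_assoc, Nat.add_mul_mod_self_left]
      rw [h4]
      refine and_congr_right (fun _ => ?_)
      refine forall_congr' (fun p => forall_congr' (fun _ => ?_))
      rw [frm_aff]
      constructor <;> intro h5 <;> linarith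
    constructor
    · rintro ⟨r, hr, h2⟩
      exact ⟨r, hr, (h1 r hr).1 h2⟩
    · rintro ⟨r, hr, h2⟩
      exact ⟨r, hr, (h1 r hr).2 h2⟩

end Pool.Agent.Helper22.TW
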